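import Mathlib
import Pool.Agent.Lib.MP_a24e3f_co.Defs
import Pool.Agent.Lib.MP_a24e3f_co.M4.Assemble

namespace Pool.Agent.Lib.MP_a24e3f_co.Old.MaxDegreeFour

open Pool.Agent.Lib.MP_a24e3f_co

/-- Let `G` be a finite or countably infinite graph. If every connected component of `G`
* has maximum degree at most four, or
* contains a finite (possibly empty) set `W` of vertices which induces a connected graph of maximum
  degree at most four, such that for some enumeration `e` of the vertices every vertex of the
  component outside `W` has at most three neighbours which are in `W` or come before it, or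
* is itself a rational graph,
then `G` is a rational graph. In particular every countable graph of maximum degree at most four is
a rational graph, and a countable graph is rational if all its connected components are. -/
theorem result (V : Type) [Countable V] (G : SimpleGraph V)
    (h : ∀ c : G.ConnectedComponent,
      (∀ v ∈ c.supp, (G.neighborSet v).encard ≤ 4) ∨
      (∃ (e : V → ℕ) (W : Set V), Function.Injective e ∧ W ⊆ c.supp ∧ W.Finite ∧
        (G.induce W).Preconnected ∧ (∀ v ∈ W, {u | G.Adj u v ∧ u ∈ W}.encard ≤ 4) ∧
        ∀ v ∈ c.supp, v ∉ W → {u | G.Adj u v ∧ (u ∈ W ∨ e u < e v)}.encard ≤ 3) ∨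
      ∃ f : c.supp → Plane, IsRationalRep (G.induce c.supp) f) :
    ∃ f : V → Plane, IsRationalRep G f :=
  M4.max_degree_four G h

end Pool.Agent.Lib.MP_a24e3f_co.Old.MaxDegreeFour
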