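import Mathlib
import Pool.Agent.Lib.MP_a24e3f_co.Defs
import Pool.Agent.Lib.MP_a24e3f_co.Final

namespace Pool.Agent.Lib.MP_a24e3f_co.Old.ThreeDegenerate

open Pool.Agent.Lib.MP_a24e3f_co

/-- Let `G` be a finite or countably infinite graph with an enumeration `e` of its vertices, and
let `W` be a finite (possibly empty) set of vertices such that the subgraph induced by `W` has a
rational representation `f₀` with all coordinates in `ℚ × √D ℚ`, where `D` is a positive rational.
If every vertex outside `W` has at most three neighbours which are in `W` or come before it in the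
enumeration, then `f₀` extends to a rational representation of `G`. In particular (`W` empty)
every countable graph with an enumeration in which each vertex has at most three earlier
neighbours is a rational graph. -/
theorem result {V : Type} (G : SimpleGraph V) (e : V → ℕ) (he : Function.Injective e) (W : Set V)
    (hW : W.Finite) (D : ℚ) (hD : 0 < D) (f₀ : W → Plane) (h₀ : IsRationalRep (G.induce W) f₀)
    (hc : ∀ w, ∃ x y : ℚ, f₀ w 0 = (x : ℝ) ∧ f₀ w 1 = (y : ℝ) * √(D : ℝ))
    (hdeg : ∀ v, v ∉ W → {u | G.Adj u v ∧ (u ∈ W ∨ e u < e v)}.encard ≤ 3) :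
    ∃ f : V → Plane, IsRationalRep G f ∧ ∀ w : W, f w = f₀ w :=
  main G e he W hW D hD f₀ h₀ hc hdeg

end Pool.Agent.Lib.MP_a24e3f_co.Old.ThreeDegenerate
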